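import Pool.Agent.Helper1.KL.Stmts
import Pool.Agent.HC.Tdeg

set_option autoImplicit false

/-!
Project KL (MP_0b9e0b_ag), module KL-7.
-/

namespace Pool.Agent.Helper67.KL

open Pool.Agent.Helper1.KL Pool.Agent.Helper16 Pool.Agent.HC

/-! ### Points and homomorphisms -/

/-- The image of a point. -/
def mp {σ N N' : Type} (φ : N → N') (z : σ → Option N) : σ → Option N' := fun j => (z j).map φ

section

variable {K σ N N' : Type} [Field K] [Field N] [Field N'] [Algebra K N] [Algebra K N']

theorem getD_mp (φ : N →ₐ[K] N') (z : σ → Option N) (j : σ) :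
    (mp φ z j).getD 0 = φ ((z j).getD 0) := by
  unfold mp
  cases z j <;> simp

theorem key_mp (φ : N →ₐ[K] N') (z : σ → Option N) : key K (mp φ z) = key K z := by
  unfold key
  refine Prod.ext ?_ ?_
  · ext j
    simp [mp]
  · simp only
    have h1 : (fun j => (mp φ z j).getD 0) = fun j => φ ((z j).getD 0) :=
      funext fun j => getD_mp φ z j
    rw [h1]
    ext P
    rw [RingHom.mem_ker, RingHom.mem_ker]
    have h2 : MvPolynomial.aeval (fun j => φ ((z j).getD 0)) P =
        φ (MvPolynomial.aeval (fun j => (z j).getD 0) P) := by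
      have := DFunLike.congr_fun (MvPolynomial.comp_aeval (fun j => (z j).getD 0) φ) P
      exact this.symm
    rw [h2]
    exact map_eq_zero_iff φ φ.injective

theorem fld_mp (φ : N →ₐ[K] N') (z : σ → Option N) : fld K (mp φ z) = (fld K z).map φ := by
  unfold fld
  rw [IntermediateField.adjoin_map]
  congr 1
  ext a
  simp only [Set.mem_ofPred_eq, Set.mem_image, mp, Option.map_eq_some_iff]
  constructor
  · rintro ⟨j, c, hc, rfl⟩
    exact ⟨c, ⟨j, hc⟩, rfl⟩
  · rintro ⟨c, ⟨j, hc⟩, rfl⟩
    exact ⟨j, c, hc, rfl⟩

theorem trdeg_fld_mp (φ : N →ₐ[K] N') (z : σ → Option N) :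
    Algebra.trdeg K (fld K (mp φ z)) = Algebra.trdeg K (fld K z) := by
  rw [fld_mp]
  exact (IntermediateField.equivMap (fld K z) φ).symm.trdeg_eq

/-- Every point is the image of a point over its own field. -/
theorem exists_own (z : σ → Option N) :
    ∃ z0 : σ → Option (fld K z), mp (fld K z).val z0 = z := by
  classical
  refine ⟨fun j => (z j).pmap (fun a h => ⟨a, h⟩)
    (fun a h => IntermediateField.subset_adjoin K _ ⟨j, h⟩), ?_⟩
  funext j
  unfold mp
  rw [Option.map_pmap]
  simp

end

section

variable {k : Type} [Field k] {p : ℕ} {n : ℕ} {b : Fin n → k} {N N' : Type} [Field N] [Field N']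
  [Algebra (RatFunc k) N] [Algebra (RatFunc k) N']

theorem XV_mp (φ : N →ₐ[RatFunc k] N') (z : Fin n ⊕ Fin n → Option N) :
    XV p b N' (mp φ z) ↔ XV p b N z := by
  unfold XV
  refine forall_congr' fun i => ?_
  have h1 : ∀ a : RatFunc k, algebraMap (RatFunc k) N' a = φ (algebraMap (RatFunc k) N a) :=
    fun a => (φ.commutes a).symm
  unfold Curve mp
  rw [h1, h1]
  rcases hx : z (Sum.inl i) with _ | a <;> rcases hy : z (Sum.inr i) with _ | c
  · simp
  · simp
  · simp
  · simp only [Option.map_some, reduceCtorEq, false_and, Option.some.injEq, false_or]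
    constructor
    · rintro ⟨_, _, rfl, rfl, h⟩
      refine ⟨a, c, rfl, rfl, φ.injective ?_⟩
      simpa using h
    · rintro ⟨_, _, rfl, rfl, h⟩
      refine ⟨_, _, rfl, rfl, ?_⟩
      have := congrArg φ h
      simpa using this

end

theorem cast_map {p : ℕ} [NeZero p] {A B F : Type} [Ring A] [Ring B] [FunLike F A B]
    [RingHomClass F A B] (φ : F) (h : ZMod p) : φ (h.cast : A) = h.cast := by
  rw [← ZMod.natCast_val, ← ZMod.natCast_val, map_natCast]

theorem tr_mp {p n : ℕ} [NeZero p] {N N' F : Type} [Field N] [Field N'] [FunLike F N N']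
    [RingHomClass F N N'] (φ : F) (h : Fin n → ZMod p) (z : Fin n ⊕ Fin n → Option N) :
    tr h (mp φ z) = mp φ (tr h z) := by
  funext j
  rcases j with i | i
  · rfl
  · unfold tr mp
    simp only [Option.map_map]
    congr 1
    funext c
    simp [cast_map φ]


/-! ### Points with given affine coordinates -/

section

variable {k : Type} [Field k] {p : ℕ} [Fact p.Prime] {n : ℕ} {b : Fin n → k} {r : ℕ}
  {I : Finset (Fin n)} {N : Type} [Field N] [Algebra (RatFunc k) N]
  {z : Fin n ⊕ Fin n → Option N}

omit [Fact p.Prime] in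
theorem curve_of_ne {t b' : N} {x y : Option N} (h : Curve p t b' x y) (hy : y ≠ none) :
    ∃ a c, x = some a ∧ y = some c ∧ a * (c ^ p - c) = t * a ^ 2 + b' := by
  rcases h with h | h
  · exact absurd h.1 hy
  · exact h

omit [Fact p.Prime] in
theorem curve_none {t b' : N} {x y : Option N} (h : Curve p t b' x y) (hx : x = none) :
    y = none := by
  rcases h with h | ⟨a, c, h, -⟩
  · exact h.1
  · rw [hx] at h
    cases h

omit [Fact p.Prime] in
/-- The affine coordinates. -/
theorem good_in (hb : ∀ i, b i ≠ 0) (h : Good p b r I z) {i : Fin n} (hi : i ∈ I) :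
    z (Sum.inl i) = some (xc z i) ∧ z (Sum.inr i) = some (yc z i) ∧ xc z i ≠ 0 ∧
    xc z i * (yc z i ^ p - yc z i) = algebraMap (RatFunc k) N RatFunc.X * xc z i ^ 2 +
      algebraMap (RatFunc k) N (RatFunc.C (b i)) := by
  obtain ⟨a, c, h1, h2, h3⟩ := curve_of_ne (h.mem i) (h.aff i hi)
  have h4 : xc z i = a := by rw [xc, h1]; rfl
  have h5 : yc z i = c := by rw [yc, h2]; rfl
  rw [h4, h5]
  refine ⟨h1, h2, ?_, h3⟩
  rintro rfl
  have h6 : algebraMap (RatFunc k) N (RatFunc.C (b i)) = 0 := by
    linear_combination -h3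
  rw [map_eq_zero, map_eq_zero] at h6
  exact hb i h6

omit [Fact p.Prime] in
theorem good_out (h : Good p b r I z) {i : Fin n} (hi : i ∉ I) :
    z (Sum.inl i) = none ∧ z (Sum.inr i) = none :=
  ⟨h.inf i hi, curve_none (h.mem i) (h.inf i hi)⟩

omit [Fact p.Prime] in
theorem fld_good (hb : ∀ i, b i ≠ 0) (h : Good p b r I z) :
    fld (RatFunc k) z = IntermediateField.adjoin (RatFunc k) (xc z '' I ∪ yc z '' I) := by
  unfold fld
  congr 1
  ext a
  constructor
  · rintro ⟨j | j, hj⟩
    · have hI : j ∈ I := by
        by_contra hcon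
        rw [(good_out h hcon).1] at hj
        cases hj
      refine Or.inl ⟨j, hI, ?_⟩
      rw [xc, hj]
      rfl
    · have hI : j ∈ I := by
        by_contra hcon
        rw [(good_out h hcon).2] at hj
        cases hj
      refine Or.inr ⟨j, hI, ?_⟩
      rw [yc, hj]
      rfl
  · rintro (⟨j, hj, rfl⟩ | ⟨j, hj, rfl⟩)
    · exact ⟨Sum.inl j, (good_in hb h hj).1⟩
    · exact ⟨Sum.inr j, (good_in hb h hj).2.1⟩

/-- The coordinates `y` are algebraic over the coordinates `x`. -/
theorem y_algebraic (hb : ∀ i, b i ≠ 0) (h : Good p b r I z) {i : Fin n} (hi : i ∈ I)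
    (S : Set N) (hS : xc z i ∈ S) :
    IsAlgebraic (IntermediateField.adjoin (RatFunc k) S) (yc z i) := by
  obtain ⟨-, -, h3, h4⟩ := good_in hb h hi
  set F := IntermediateField.adjoin (RatFunc k) S
  have hx : xc z i ∈ F := IntermediateField.subset_adjoin _ _ hS
  have h5 : yc z i ^ p - yc z i ∈ F := by
    have : yc z i ^ p - yc z i = (algebraMap (RatFunc k) N RatFunc.X * xc z i ^ 2 +
      algebraMap (RatFunc k) N (RatFunc.C (b i))) / xc z i := by
      rw [← h4]
      field_simp
    rw [this]
    exact F.div_mem (F.add_mem (F.mul_mem (F.algebraMap_mem _) (pow_mem hx 2))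
      (F.algebraMap_mem _)) hx
  have hp : 1 < p := (Fact.out : p.Prime).one_lt
  have hdeg : (Polynomial.X ^ p - Polynomial.X : Polynomial F).natDegree = p := by
    rw [Polynomial.natDegree_sub_eq_left_of_natDegree_lt]
    · simp
    · simpa using hp
  refine IsAlgebraic.of_aeval (Polynomial.X ^ p - Polynomial.X : Polynomial F) ?_ ?_ ?_
  · rw [hdeg]
    omega
  · rw [mem_nonZeroDivisors_iff_ne_zero, Polynomial.leadingCoeff_ne_zero]
    intro h0
    rw [h0, Polynomial.natDegree_zero] at hdeg
    omega
  · rw [map_sub, map_pow, Polynomial.aeval_X]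
    exact isAlgebraic_algebraMap (⟨_, h5⟩ : F)

theorem tdeg_good (hb : ∀ i, b i ≠ 0) (h : Good p b r I z) :
    tdeg (RatFunc k) (xc z '' (I : Set (Fin n))) = r := by
  have h1 := h.dim
  rw [fld_good hb h] at h1
  have hf : (xc z '' (I : Set (Fin n))).Finite := I.finite_toSet.image _
  have hg : (yc z '' (I : Set (Fin n))).Finite := I.finite_toSet.image _
  rw [← tdeg_union_of_algebraic hf hg, tdeg_eq_iff (hf.union hg)]
  · exact h1
  · rintro a ⟨i, hi, rfl⟩
    exact y_algebraic hb h hi _ ⟨i, hi, rfl⟩

end

/-- An algebraic coordinate. -/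
theorem exists_alg {K N : Type} [Field K] [Field N] [Algebra K N] {n : ℕ} (x : Fin n → N)
    (E : Finset (Fin n)) (h : tdeg K (x '' E) < E.card) :
    ∃ i ∈ E, tdeg K (x '' E) ≤ tdeg K (x '' (E.erase i)) := by
  classical
  have h0 := tdeg_spec (K := K) (E.finite_toSet.image x)
  have h1 : Set.range (fun i : E => x i) = x '' E := by
    ext a
    simp
  obtain ⟨e, he⟩ : ∃ e : Fin (tdeg K (x '' E)) → E, AlgebraicIndependent K fun a => x (e a) := by
    refine exists_indep_sub (K := K) (fun i : E => x i) ?_
    rw [h1]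
    exact h0
  by_contra hcon
  push Not at hcon
  have h2 : ∀ i : E, ∃ a, e a = i := by
    intro i
    by_contra hi
    push Not at hi
    have h3 := hcon i i.2
    have h4 := tdeg_range_of_indep he
    have h5 : tdeg K (Set.range fun a => x (e a)) ≤ tdeg K (x '' (E.erase (i : Fin n))) := by
      refine tdeg_mono' ((Finset.finite_toSet _).image x) ?_
      rintro _ ⟨a, rfl⟩
      refine ⟨e a, ?_, rfl⟩
      rw [Finset.mem_coe, Finset.mem_erase]
      exact ⟨fun hh => hi a (Subtype.ext hh), (e a).2⟩
    omega
  have h6 := Fintype.card_le_of_surjective e h2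
  rw [Fintype.card_fin, Fintype.card_coe] at h6
  omega


section tr

theorem charP_of (k N : Type) [Field k] [Field N] [Algebra (RatFunc k) N] (q : ℕ) [CharP k q] :
    CharP N q :=
  charP_of_injective_ringHom ((algebraMap (RatFunc k) N).comp RatFunc.C).injective q

variable {k : Type} [Field k] {p : ℕ} [Fact p.Prime] [CharP k p] {n : ℕ} {b : Fin n → k} {r : ℕ}
  {N : Type} [Field N] [Algebra (RatFunc k) N]

theorem cast_pow' [CharP N p] (h : ZMod p) : (h.cast : N) ^ p = h.cast := by
  rw [← ZMod.natCast_val]
  exact map_natCast (frobenius N p) _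

theorem XV_tr (h : Fin n → ZMod p) {z : Fin n ⊕ Fin n → Option N} (hz : XV p b N z) :
    XV p b N (tr h z) := by
  have : CharP N p := charP_of k N p
  intro i
  rcases hz i with h1 | ⟨a, c, h1, h2, h3⟩
  · left
    refine ⟨?_, h1.2⟩
    simp only [tr, h1.1, Option.map_none]
  · right
    refine ⟨a, c + (h i).cast, h1, ?_, ?_⟩
    · simp only [tr, h2, Option.map_some]
    · rw [add_pow_char, cast_pow', ← h3]
      ring

theorem tr_neg_tr (h : Fin n → ZMod p) (z : Fin n ⊕ Fin n → Option N) (hN : CharP N p) :
    tr (-h) (tr h z) = z := by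
  funext j
  rcases j with i | i
  · rfl
  · simp only [tr, Option.map_map]
    have : ((fun c : N => c + ((-h) i).cast) ∘ fun c => c + (h i).cast) = id := by
      funext c
      simp only [Function.comp_apply, Pi.neg_apply, id_eq]
      rw [add_assoc, ← ZMod.cast_add (R := N) (dvd_refl p), add_neg_cancel, ZMod.cast_zero,
        add_zero]
    rw [this, Option.map_id, id_eq]

omit [CharP k p] in
theorem fld_tr_le (h : Fin n → ZMod p) (z : Fin n ⊕ Fin n → Option N) :
    fld (RatFunc k) (tr h z) ≤ fld (RatFunc k) z := by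
  unfold fld
  rw [IntermediateField.adjoin_le_iff]
  rintro a ⟨j | j, hj⟩
  · exact IntermediateField.subset_adjoin _ _ ⟨Sum.inl j, hj⟩
  · simp only [tr, Option.map_eq_some_iff] at hj
    obtain ⟨c, hc, rfl⟩ := hj
    refine add_mem (IntermediateField.subset_adjoin _ _ ⟨Sum.inr j, hc⟩) ?_
    rw [← ZMod.natCast_val]
    exact natCast_mem _ _

theorem fld_tr (h : Fin n → ZMod p) (z : Fin n ⊕ Fin n → Option N) :
    fld (RatFunc k) (tr h z) = fld (RatFunc k) z := by
  refine le_antisymm (fld_tr_le h z) ?_
  have h1 := fld_tr_le (k := k) (-h) (tr h z)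
  rwa [tr_neg_tr h z (charP_of k N p)] at h1

omit [Fact p.Prime] in
theorem aff_tr (h : Fin n → ZMod p) (z : Fin n ⊕ Fin n → Option N) : aff (tr h z) = aff z := by
  unfold aff
  ext i
  simp [tr]

/-- Points with less affine coordinates. -/
theorem SH_mem (H : Finset (Fin n → ZMod p)) {z : Fin n ⊕ Fin n → Option N} {m : ℕ}
    (hz : XV p b N z) (hd : Algebra.trdeg (RatFunc k) (fld (RatFunc k) z) = r)
    (hm : (aff z).card < m) : SH p b r H z ∈ GG p b r m := by
  unfold SH
  refine sum_mem fun h _ => Submodule.subset_span ?_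
  exact ⟨N, _, _, tr h z, XV_tr h hz, by rw [fld_tr]; exact hd, by rw [aff_tr]; exact hm, rfl⟩

end tr


/-! ### The homotopy -/

theorem at0_C {N : Type} [Field N] (a : N) : At0 (RatFunc.C a) a :=
  ⟨Polynomial.C a, 1, by simp, by simp, by simp [RatFunc.algebraMap_C]⟩

theorem at0_C_add_X {N : Type} [Field N] (a : N) : At0 (RatFunc.C a + RatFunc.X) a :=
  ⟨Polynomial.C a + Polynomial.X, 1, by simp, by simp,
    by simp [RatFunc.algebraMap_C, RatFunc.algebraMap_X]⟩

theorem C_add_X_ne {N : Type} [Field N] (a : N) : (RatFunc.C a + RatFunc.X : RatFunc N) ≠ 0 := by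
  have h1 : (RatFunc.C a + RatFunc.X : RatFunc N) =
      algebraMap (Polynomial N) (RatFunc N) (Polynomial.X + Polynomial.C a) := by
    rw [map_add, RatFunc.algebraMap_C, RatFunc.algebraMap_X, add_comm]
  rw [h1]
  exact (map_ne_zero_iff _ (RatFunc.algebraMap_injective N)).2 (Polynomial.X_add_C_ne_zero a)

theorem ec_zero {p n : ℕ} {N : Type} [Field N] (z : Fin n ⊕ Fin n → Option N) :
    ec (0 : Fin n → ZMod p) z = 0 := by
  simp [ec]

theorem essFinite_fld {K σ N : Type} [Field K] [Field N] [Algebra K N] [Finite σ]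
    (z : σ → Option N) : Algebra.EssFiniteType K (fld K z) := by
  rw [IntermediateField.essFiniteType_iff]
  refine IntermediateField.fg_adjoin_of_finite ?_
  refine (Set.finite_range fun j => (z j).getD 0).subset ?_
  rintro a ⟨j, hj⟩
  exact ⟨j, by simp [hj]⟩

section main

variable {k : Type} [Field k] {p : ℕ} [Fact p.Prime] [CharP k p] {n : ℕ} {b : Fin n → k} {r : ℕ}
  {I : Finset (Fin n)}

omit [CharP k p] in
theorem SS_mp {N N' : Type} [Field N] [Field N'] [Algebra (RatFunc k) N] [Algebra (RatFunc k) N']
    (φ : N →ₐ[RatFunc k] N') (ρ : Fin n → ZMod p) (z : Fin n ⊕ Fin n → Option N) :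
    SS p b r ρ (mp φ z) = SS p b r ρ z := by
  unfold SS SH cl cls
  refine Finset.sum_congr rfl fun h _ => ?_
  rw [tr_mp φ, key_mp]

omit [CharP k p] [Fact p.Prime] in
theorem good_mp {N N' : Type} [Field N] [Field N'] [Algebra (RatFunc k) N]
    [Algebra (RatFunc k) N'] (φ : N →ₐ[RatFunc k] N') (z : Fin n ⊕ Fin n → Option N)
    (h : Good p b r I (mp φ z)) : Good p b r I z where
  mem := (XV_mp φ z).1 h.mem
  aff i hi h0 := h.aff i hi (by simp [mp, h0])
  inf i hi := by
    have := h.inf i hi
    simpa [mp] using this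
  dim := by
    rw [← trdeg_fld_mp φ]
    exact h.dim

theorem xc_mp {N N' : Type} [Field N] [Field N'] {K : Type} [Field K] [Algebra K N] [Algebra K N']
    (φ : N →ₐ[K] N') (z : Fin n ⊕ Fin n → Option N) (i : Fin n) :
    xc (mp φ z) i = φ (xc z i) := getD_mp φ z (Sum.inl i)

omit [CharP k p] in
/-- The coordinates of the moving point specialise to those of `z`. -/
theorem key_eq_of_res (hb : ∀ i, b i ≠ 0) {N M : Type} [Field N] [Field M]
    [Algebra (RatFunc k) N] [Algebra (RatFunc k) M] (φ : N →ₐ[RatFunc k] M)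
    (v : Place (RatFunc k) M) {z : Fin n ⊕ Fin n → Option N} (hz : Good p b r I z)
    {w : Fin n ⊕ Fin n → Option v.resField} (hw : Good p b r I w)
    (h : ∀ i ∈ I, φ (xc z i) ∈ v.ring ∧ v.res (φ (xc z i)) = xc w i) :
    key (RatFunc k) (red (0 : Fin n → ZMod p) w) = key (RatFunc k) (red (0 : Fin n → ZMod p) z) := by
  classical
  set T : Set M := φ '' (xc z '' (I : Set (Fin n))) with hT
  have hTf : T.Finite := (I.finite_toSet.image _).image _
  have h1 : v.res '' T = xc w '' (I : Set (Fin n)) := by
    rw [hT, Set.image_image, Set.image_image]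
    exact Set.image_congr fun i hi => (h i hi).2
  have h2 : ∀ a ∈ IntermediateField.adjoin (RatFunc k) T, a ≠ 0 → v.val a = 1 := by
    intro a ha ha0
    by_contra hcon
    have h3 := tdeg_res_lt v hTf (by
      rintro _ ⟨_, ⟨i, hi, rfl⟩, rfl⟩
      exact (h i hi).1) ⟨a, ha, ha0, hcon⟩
    rw [h1, tdeg_good hb hw, hT, tdeg_image, tdeg_good hb hz] at h3
    exact lt_irrefl _ h3
  have h4 : ∀ j, φ ((red (0 : Fin n → ZMod p) z j).getD 0) ∈ v.ring ∧
      (red (0 : Fin n → ZMod p) w j).getD 0 = v.res (φ ((red (0 : Fin n → ZMod p) z j).getD 0)) ∧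
      φ ((red (0 : Fin n → ZMod p) z j).getD 0) ∈ IntermediateField.adjoin (RatFunc k) T := by
    rintro (i | u)
    · by_cases hi : i ∈ I
      · refine ⟨(h i hi).1, (h i hi).2.symm, ?_⟩
        exact IntermediateField.subset_adjoin _ _ ⟨_, ⟨i, hi, rfl⟩, rfl⟩
      · simp only [red, (good_out hz hi).1, (good_out hw hi).1, Option.getD_none, map_zero,
          v.res_zero]
        exact ⟨v.ring.zero_mem, trivial, zero_mem _⟩
    · simp only [red, ec_zero, Option.getD_some, map_zero, v.res_zero]
      exact ⟨v.ring.zero_mem, trivial, zero_mem _⟩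
  unfold key
  refine Prod.ext ?_ ?_
  · ext j
    rcases j with i | u
    · by_cases hi : i ∈ I
      · simp [red, (good_in hb hz hi).1, (good_in hb hw hi).1]
      · simp [red, (good_out hz hi).1, (good_out hw hi).1]
    · simp [red]
  · simp only
    ext P
    rw [RingHom.mem_ker, RingHom.mem_ker]
    have h5 : (fun j => (red (0 : Fin n → ZMod p) w j).getD 0) =
        fun j => v.res (φ ((red (0 : Fin n → ZMod p) z j).getD 0)) := funext fun j => (h4 j).2.1
    have h6 := aeval_res v (fun j => (h4 j).1) P
    have h7 : MvPolynomial.aeval (fun j => φ ((red (0 : Fin n → ZMod p) z j).getD 0)) P =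
        φ (MvPolynomial.aeval (fun j => (red (0 : Fin n → ZMod p) z j).getD 0) P) := by
      have := DFunLike.congr_fun (MvPolynomial.comp_aeval
        (fun j => (red (0 : Fin n → ZMod p) z j).getD 0) φ) P
      exact this.symm
    rw [h5, ← h6.2]
    constructor
    · intro h8
      by_contra h9
      have h10 : φ (MvPolynomial.aeval (fun j => (red (0 : Fin n → ZMod p) z j).getD 0) P) ≠ 0 :=
        (map_ne_zero_iff φ φ.injective).2 h9
      rw [← h7] at h10
      have h11 := h2 _ ?_ h10
      · rw [v.res_eq_zero_iff h6.1, h11] at h8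
        exact lt_irrefl _ h8
      · have h12 : MvPolynomial.aeval (fun j => φ ((red (0 : Fin n → ZMod p) z j).getD 0)) P ∈
            Algebra.adjoin (RatFunc k)
              (Set.range fun j => φ ((red (0 : Fin n → ZMod p) z j).getD 0)) := by
          rw [Algebra.adjoin_range_eq_range_aeval]
          exact ⟨P, rfl⟩
        refine (Algebra.adjoin_le (S := (IntermediateField.adjoin (RatFunc k) T).toSubalgebra)
          ?_) h12
        rintro _ ⟨j, rfl⟩
        exact (h4 j).2.2
    · intro h8
      rw [h7, h8, map_zero, v.res_zero]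


theorem main_aux (hHom : ModHom k p b r) (hb : ∀ i, b i ≠ 0) (hr : r < I.card) (d : ℕ) :
    ∀ D ⊆ I, (I \ D).card = d → ∀ (N : Type) [Field N] [Algebra (RatFunc k) N]
      (z : Fin n ⊕ Fin n → Option N), Good p b r I z →
      tdeg (RatFunc k) (xc z '' ((I \ D : Finset (Fin n)) : Set (Fin n))) + D.card ≤ r →
      SS p b r 0 z ∈ GG p b r I.card := by
  classical
  induction d with
  | zero =>
    intro D hD hcard N _ _ z hz hP
    exfalso
    rw [Finset.card_eq_zero, Finset.sdiff_eq_empty_iff_subset] at hcard
    have := Finset.card_le_card hcard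
    omega
  | succ d ih =>
    intro D hD hcard N _ _ z hz hP
    have hc : (I \ D).card = I.card - D.card := Finset.card_sdiff_of_subset hD
    obtain ⟨i0, hi0, halg⟩ := exists_alg (K := RatFunc k) (xc z) (I \ D) (by omega)
    have hi0I : i0 ∈ I := (Finset.mem_sdiff.1 hi0).1
    have hi0D : i0 ∉ D := (Finset.mem_sdiff.1 hi0).2
    set N0 := fld (RatFunc k) z with hN0
    obtain ⟨z0, hz0⟩ : ∃ z0 : Fin n ⊕ Fin n → Option N0, mp N0.val z0 = z :=
      exists_own (K := RatFunc k) z
    let _ : Algebra k N0 := ((algebraMap (RatFunc k) N0).comp RatFunc.C).toAlgebra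
    have _ : IsScalarTower k (RatFunc k) N0 := IsScalarTower.of_algebraMap_eq' (by
      rw [RatFunc.algebraMap_eq_C]
      rfl)
    have hg0 : Good p b r I z0 := good_mp N0.val z0 (by rw [hz0]; exact hz)
    rw [← hz0, SS_mp]
    have hxc : ∀ E : Set (Fin n), tdeg (RatFunc k) (xc z '' E) = tdeg (RatFunc k) (xc z0 '' E) := by
      intro E
      have h1 : xc z '' E = N0.val '' (xc z0 '' E) := by
        rw [Set.image_image]
        refine Set.image_congr fun i _ => ?_
        rw [← xc_mp N0.val z0 i, hz0]
      rw [h1, tdeg_image]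
    rw [hxc] at hP
    rw [hxc, hxc] at halg
    let x' : Fin n → RatFunc N0 := fun i =>
      if i = i0 then RatFunc.C (xc z0 i) + RatFunc.X else RatFunc.C (xc z0 i)
    refine hHom N0 I z0 0 ((RatFunc.C).comp (algebraMap (RatFunc k) N0)) x' 0 (GG p b r I.card)
      (essFinite_fld z) hz.dim hg0 (fun _ _ => rfl) (fun _ => rfl) ?_ ?_ ?_ ?_ ?_ ?_
    · intro a
      rfl
    · exact at0_C _
    · intro i hi
      by_cases h1 : i = i0
      · simp only [x', if_pos h1]
        exact ⟨C_add_X_ne _, at0_C_add_X _⟩
      · simp only [x', if_neg h1]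
        exact ⟨(map_ne_zero _).2 (good_in hb hg0 hi).2.2.1, at0_C _⟩
    · rw [ec_zero]
      have := at0_C (0 : N0)
      rwa [map_zero] at this
    · simp [zero_pow (Fact.out : p.Prime).ne_zero]
    · intro M _ _ j z' v hj hEss htr _ hXV hin hout hec hord hXVv hdv
      let φ : N0 →ₐ[RatFunc k] M :=
        { toRingHom := j.comp RatFunc.C
          commutes' := fun a => by
            change j (RatFunc.C (algebraMap (RatFunc k) N0 a)) = _
            rw [hj]
            rfl }
      have hφ : ∀ a : N0, φ a = j (RatFunc.C a) := fun a => rfl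
      set w := spec v z' with hw
      by_cases haff : ∃ i ∈ I, w (Sum.inr i) = none
      · left
        obtain ⟨i, hi, hwi⟩ := haff
        refine SH_mem _ hXVv hdv ?_
        refine Finset.card_lt_card ⟨?_, ?_⟩
        · intro l hl
          by_contra hcon
          have h1 : w (Sum.inl l) = none := by
            rw [hw]
            simp [spec, hout l hcon]
          have h2 := curve_none (hXVv l) h1
          simp only [aff, Finset.mem_filter, Finset.mem_univ, true_and] at hl
          exact hl h2
        · intro hsub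
          have := hsub hi
          simp only [aff, Finset.mem_filter, Finset.mem_univ, true_and] at this
          exact this hwi
      · push Not at haff
        have hgw : Good p b r I w := ⟨hXVv, haff, fun i hi => by rw [hw]; simp [spec, hout i hi], hdv⟩
        have h1 : ∀ i ∈ I, j (x' i) ∈ v.ring ∧ v.res (j (x' i)) = xc w i := by
          intro i hi
          have h2 := (good_in hb hgw hi).1
          have h3 : w (Sum.inl i) = if j (x' i) ∈ v.ring then some (v.res (j (x' i))) else none := by
            rw [hw]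
            simp [spec, (hin i hi).1]
          by_cases h4 : j (x' i) ∈ v.ring
          · rw [if_pos h4, h2] at h3
            exact ⟨h4, (Option.some.inj h3).symm⟩
          · rw [if_neg h4, h2] at h3
            cases h3
        have hne : ∀ i ∈ I, i ≠ i0 → j (x' i) = φ (xc z0 i) := by
          intro i hi h2
          simp only [x', if_neg h2]
          rfl
        have heq : j (x' i0) = φ (xc z0 i0) + j RatFunc.X := by
          simp only [x', if_pos rfl]
          rw [map_add, hφ]
        have hX0 : j RatFunc.X ≠ 0 := (map_ne_zero j).2 RatFunc.X_ne_zero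
        rcases lt_or_gt_of_ne hord with hlt | hgt
        · -- a pole
          left
          have hval : 1 < v.val (j RatFunc.X) := (v.ord_neg_iff hX0).1 hlt
          have hx0 : φ (xc z0 i0) ≠ 0 := (map_ne_zero φ).2 (good_in hb hg0 hi0I).2.2.1
          have hbig : v.val (φ (xc z0 i0)) ≠ 1 := by
            intro h2
            have h3 : v.val (j (x' i0)) = v.val (j RatFunc.X) := by
              rw [heq, add_comm]
              exact v.val.map_add_eq_of_lt_left (by rw [h2]; exact hval)
            have h4 : v.val (j (x' i0)) ≤ 1 := (h1 i0 hi0I).1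
            rw [h3] at h4
            exact absurd hval (not_lt.2 h4)
          set E : Finset (Fin n) := (I \ D).erase i0 with hE
          set T : Set M := φ '' (xc z0 '' (E : Set (Fin n))) with hT
          have hTf : T.Finite := (E.finite_toSet.image _).image _
          have hEI : ∀ i ∈ E, i ∈ I ∧ i ≠ i0 := fun i hi =>
            ⟨(Finset.mem_sdiff.1 (Finset.mem_erase.1 hi).2).1, (Finset.mem_erase.1 hi).1⟩
          have hIns : xc z0 '' ((I \ D : Finset (Fin n)) : Set (Fin n)) =
              insert (xc z0 i0) (xc z0 '' (E : Set (Fin n))) := by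
            rw [← Set.image_insert_eq, ← Finset.coe_insert, hE, Finset.insert_erase hi0]
          have hal : IsAlgebraic (IntermediateField.adjoin (RatFunc k) T) (φ (xc z0 i0)) := by
            refine isAlgebraic_of_tdeg hTf ?_
            rw [hT, ← Set.image_insert_eq, tdeg_image, tdeg_image, ← hIns]
            exact halg
          have hnt : ∃ a ∈ IntermediateField.adjoin (RatFunc k) T, a ≠ 0 ∧ v.val a ≠ 1 := by
            by_contra hcon
            push Not at hcon
            exact hbig (val_eq_one_of_algebraic_over v hcon hal hx0)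
          have hlt2 := tdeg_res_lt v hTf (by
            rintro _ ⟨_, ⟨i, hi, rfl⟩, rfl⟩
            rw [← hne i (hEI i hi).1 (hEI i hi).2]
            exact (h1 i (hEI i hi).1).1) hnt
          have hres : v.res '' T = xc w '' (E : Set (Fin n)) := by
            rw [hT, Set.image_image, Set.image_image]
            refine Set.image_congr fun i hi => ?_
            rw [← hne i (hEI i hi).1 (hEI i hi).2]
            exact (h1 i (hEI i hi).1).2
          rw [hres, hT, tdeg_image] at hlt2
          have hmono : tdeg (RatFunc k) (xc z0 '' (E : Set (Fin n))) ≤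
              tdeg (RatFunc k) (xc z0 '' ((I \ D : Finset (Fin n)) : Set (Fin n))) :=
            tdeg_mono' ((Finset.finite_toSet _).image _) (Set.image_mono (by
              rw [hE]
              exact_mod_cast Finset.erase_subset _ _))
          have hID : I \ insert i0 D = E := by
            rw [hE]
            ext i
            simp only [Finset.mem_sdiff, Finset.mem_insert, Finset.mem_erase]
            tauto
          refine ih (insert i0 D) (Finset.insert_subset hi0I hD) ?_ v.resField w hgw ?_
          · rw [hID, hE, Finset.card_erase_of_mem hi0, hcard]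
            rfl
          · rw [hID, Finset.card_insert_of_notMem hi0D]
            omega
        · -- a zero
          right
          refine ⟨hgt, ?_⟩
          have hval : v.val (j RatFunc.X) < 1 := (v.ord_pos_iff hX0).1 hgt
          refine key_eq_of_res hb φ v hg0 hgw fun i hi => ?_
          by_cases h2 : i = i0
          · subst h2
            have h3 : φ (xc z0 i) = j (x' i) - j RatFunc.X := by
              rw [heq]
              ring
            have h4 : j RatFunc.X ∈ v.ring := hval.le
            rw [h3]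
            refine ⟨v.ring.sub_mem (h1 i hi).1 h4, ?_⟩
            rw [v.res_sub (h1 i hi).1 h4, (v.res_eq_zero_iff h4).2 hval, sub_zero]
            exact (h1 i hi).2
          · rw [← hne i hi h2]
            exact h1 i hi

/-- KL-7. -/
theorem mod0 (hHom : ModHom k p b r) (hb : ∀ i, b i ≠ 0) : Mod0 k p b r := by
  intro N _ _ I z hr hz
  refine main_aux hHom hb hr (I \ ∅).card ∅ (Finset.empty_subset _) rfl N z hz ?_
  rw [Finset.sdiff_empty, tdeg_good hb hz, Finset.card_empty, add_zero]


omit [CharP k p] in
/-- The reduced point with algebraically independent coordinates. -/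
theorem ker_top (hb : ∀ i, b i ≠ 0) (hr : r = I.card) {N : Type} [Field N]
    [Algebra (RatFunc k) N] {z : Fin n ⊕ Fin n → Option N} (hz : Good p b r I z)
    (P : MvPolynomial (Fin n ⊕ Unit) (RatFunc k)) :
    (open scoped Classical in
    MvPolynomial.aeval (fun j => (red (0 : Fin n → ZMod p) z j).getD 0) P = 0 ↔
      MvPolynomial.aeval (R := RatFunc k) (S₁ := MvPolynomial I (RatFunc k))
        (Sum.elim (fun i => if h : i ∈ I then MvPolynomial.X ⟨i, h⟩ else 0) fun _ => 0) P = 0) := by
  classical
  have h0 := tdeg_good hb hz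
  have h1 : Set.range (fun i : I => xc z i) = xc z '' I := by
    ext a
    simp
  have h2 : AlgebraicIndependent (RatFunc k) fun i : I => xc z i := by
    refine indep_of_trdeg _ ?_
    rw [h1, tdeg_spec (I.finite_toSet.image _), h0, hr, Fintype.card_coe]
  have h3 : (fun j => (red (0 : Fin n → ZMod p) z j).getD 0) = fun j =>
      MvPolynomial.aeval (R := RatFunc k) (fun i : I => xc z i)
        ((Sum.elim (fun i => if h : i ∈ I then MvPolynomial.X ⟨i, h⟩ else 0) fun _ => 0 :
          Fin n ⊕ Unit → MvPolynomial I (RatFunc k)) j) := by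
    funext j
    rcases j with i | u
    · by_cases hi : i ∈ I
      · simp only [Sum.elim_inl, dif_pos hi, MvPolynomial.aeval_X]
        rfl
      · simp only [Sum.elim_inl, dif_neg hi, map_zero, red, (good_out hz hi).1, Option.getD_none]
    · simp [red, ec_zero]
  have h4 := DFunLike.congr_fun (MvPolynomial.comp_aeval
    (Sum.elim (fun i => if h : i ∈ I then MvPolynomial.X ⟨i, h⟩ else 0) fun _ => 0 :
      Fin n ⊕ Unit → MvPolynomial I (RatFunc k))
    (MvPolynomial.aeval (R := RatFunc k) (fun i : I => xc z i))) P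
  have h5 : MvPolynomial.aeval (fun j => (red (0 : Fin n → ZMod p) z j).getD 0) P =
      MvPolynomial.aeval (R := RatFunc k) (fun i : I => xc z i)
        (MvPolynomial.aeval (R := RatFunc k) (S₁ := MvPolynomial I (RatFunc k))
        (Sum.elim (fun i => if h : i ∈ I then MvPolynomial.X ⟨i, h⟩ else 0) fun _ => 0) P) := by
    rw [h3]
    exact h4.symm
  rw [h5]
  exact map_eq_zero_iff _ h2

omit [CharP k p] in
/-- KL-7b. -/
theorem mod0' (hS : ModS k p b r) (hb : ∀ i, b i ≠ 0) : Mod0' k p b r := by
  intro N N' _ _ _ _ I z z' hr hz hz'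
  refine (hS N N' z z' 0 hz.mem hz'.mem ?_).1
  unfold key
  refine Prod.ext ?_ ?_
  · ext j
    rcases j with i | u
    · by_cases hi : i ∈ I
      · simp [red, (good_in hb hz hi).1, (good_in hb hz' hi).1]
      · simp [red, (good_out hz hi).1, (good_out hz' hi).1]
    · simp [red]
  · simp only
    ext P
    rw [RingHom.mem_ker, RingHom.mem_ker]
    exact (ker_top hb hr hz P).trans (ker_top hb hr hz' P).symm

end main

end Pool.Agent.Helper67.KL
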